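import Mathlib

open FirstOrder

namespace Pool.Agent.Results.MP_a762d4_al.NonelementarySemilattices

universe w

/-- An identical inclusion: a word `u` and a nonempty set `V` of words over the countably infinite
set `ℕ` of variables (`FreeSemigroup ℕ` is the free semigroup of nonempty words). -/
structure IdInclusion where
  /-- the left-hand word -/
  u : FreeSemigroup ℕ
  /-- the set of right-hand words -/
  V : Set (FreeSemigroup ℕ)
  /-- the set of right-hand words is nonempty -/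
  nonempty : V.Nonempty

/-- The semigroup `S` satisfies the identical inclusion `I = (u ∈ V)`: for every homomorphism
`φ` from the free semigroup to `S` there is `v ∈ V` with `φ u = φ v`. -/
def IdInclusion.SatisfiedBy (I : IdInclusion) (S : Type*) [Semigroup S] : Prop :=
  ∀ φ : FreeSemigroup ℕ →ₙ* S, ∃ v ∈ I.V, φ I.u = φ v

/-- `S` belongs to the inclusive variety defined by the set `E` of identical inclusions. -/
def InInclusiveVariety (E : Set IdInclusion) (S : Type*) [Semigroup S] : Prop :=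
  ∀ I ∈ E, I.SatisfiedBy S

/-- The only function symbol of the language of one binary operation. -/
inductive MulFunctions : ℕ → Type
  | mul : MulFunctions 2

/-- The first-order language with one binary operation symbol (and equality). -/
def mulLanguage : Language := ⟨MulFunctions, fun _ => Empty⟩

/-- A semigroup as a first-order structure in the language of one binary operation. -/
instance mulStructure (S : Type*) [Semigroup S] : mulLanguage.Structure S where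
  funMap := fun f x => match f with
    | .mul => x 0 * x 1
  RelMap := fun r => r.elim

/-- The inclusive variety defined by `E` is elementary: it is the class of all (nonempty)
semigroups that are models of some set `T` of first-order sentences in the language of one binary
operation. -/
def IsElementary (E : Set IdInclusion) : Prop :=
  ∃ T : mulLanguage.Theory, ∀ (S : Type w) [Semigroup S] [Nonempty S],
    InInclusiveVariety E S ↔ S ⊨ T

/-! ### The combinatorial core -/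

/-- The abstract argument: in a family of sets closed under the two arc properties, the
sequences of the failing pattern give a strictly increasing sequence. -/
theorem step {α : Type*} (P : Set α → Prop)
    (h1 : ∀ a b c, P a → P b → P c → (a ∩ b ∩ c).Nonempty → a ∩ b ⊆ c ∨ a ∩ c ⊆ b ∨ b ∩ c ⊆ a)
    (h3 : ∀ a b c d, P a → P b → P c → P d → (a ∩ b ∩ d).Nonempty → (a ∩ c ∩ d).Nonempty →
      (b ∩ c ∩ d).Nonempty → (a ∩ b ∩ c).Nonempty)
    {a b c y z y' z' : Set α} (ha : P a) (hb : P b) (hc : P c) (hy : P y) (hz : P z) (hy' : P y')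
    (hz' : P z')
    (habc : ¬ (a ∩ b ∩ c).Nonempty)
    (aby : (a ∩ b ∩ y).Nonempty) (acy : (a ∩ c ∩ y).Nonempty)
    (abz : (a ∩ b ∩ z).Nonempty) (bcz : (b ∩ c ∩ z).Nonempty)
    (cyz : (c ∩ y ∩ z).Nonempty)
    (aby' : (a ∩ b ∩ y').Nonempty) (acy' : (a ∩ c ∩ y').Nonempty)
    (abz' : (a ∩ b ∩ z').Nonempty) (bcz' : (b ∩ c ∩ z').Nonempty)
    (cyz' : (c ∩ y' ∩ z').Nonempty)
    (abzy' : (a ∩ b ∩ z ∩ y').Nonempty) :
    a ∩ b ∩ y ⊂ a ∩ b ∩ y' := by
  have key : ∀ y z : Set α, P y → P z → (a ∩ b ∩ y).Nonempty → (a ∩ c ∩ y).Nonempty →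
      (a ∩ b ∩ z).Nonempty → (b ∩ c ∩ z).Nonempty → (c ∩ y ∩ z).Nonempty →
      (¬ (a ∩ c ∩ z).Nonempty) ∧ a ∩ c ⊆ y ∧ ¬ (a ∩ b ∩ y ∩ z).Nonempty := by
    intro y z hy hz aby acy abz bcz cyz
    have n1 : ¬ (b ∩ c ∩ y).Nonempty := fun h => habc (h3 a b c y ha hb hc hy aby acy h)
    have n2 : ¬ (a ∩ c ∩ z).Nonempty := fun h => habc (h3 a b c z ha hb hc hz abz h bcz)
    refine ⟨n2, ?_, ?_⟩
    · rcases h1 a c y ha hc hy acy with h | h | h
      · exact h
      · exfalso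
        obtain ⟨t, ⟨ta, tb⟩, ty⟩ := aby
        exact habc ⟨t, ⟨ta, tb⟩, h ⟨ta, ty⟩⟩
      · exfalso
        obtain ⟨t, ⟨tc, ty⟩, tz⟩ := cyz
        exact n2 ⟨t, ⟨h ⟨tc, ty⟩, tc⟩, tz⟩
    · have hyzc : (y ∩ z ∩ c).Nonempty := by
        obtain ⟨t, ⟨tc, ty⟩, tz⟩ := cyz
        exact ⟨t, ⟨ty, tz⟩, tc⟩
      rcases h1 y z c hy hz hc hyzc with h | h | h
      · rintro ⟨t, ⟨⟨ta, tb⟩, ty⟩, tz⟩
        exact habc ⟨t, ⟨ta, tb⟩, h ⟨ty, tz⟩⟩
      · exfalso
        obtain ⟨t, ⟨ta, tc⟩, ty⟩ := acy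
        exact n2 ⟨t, ⟨ta, tc⟩, h ⟨ty, tc⟩⟩
      · exfalso
        obtain ⟨t, ⟨tb, tc⟩, tz⟩ := bcz
        exact n1 ⟨t, ⟨tb, tc⟩, h ⟨tz, tc⟩⟩
  obtain ⟨-, acy1, nyz⟩ := key y z hy hz aby acy abz bcz cyz
  obtain ⟨-, acy2, -⟩ := key y' z' hy' hz' aby' acy' abz' bcz' cyz'
  obtain ⟨s, ⟨sa, sc⟩, sy⟩ := acy
  obtain ⟨t, ⟨⟨ta, tb⟩, tz⟩, ty'⟩ := abzy'
  have hne : (y ∩ y' ∩ b).Nonempty := by
    refine h3 y y' b a hy hy' hb ha ?_ ?_ ?_
    · exact ⟨s, ⟨sy, acy2 ⟨sa, sc⟩⟩, sa⟩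
    · obtain ⟨r, ⟨ra, rb⟩, ry⟩ := aby
      exact ⟨r, ⟨ry, rb⟩, ra⟩
    · exact ⟨t, ⟨ty', tb⟩, ta⟩
  have hsub : y ∩ b ⊆ y' := by
    rcases h1 y y' b hy hy' hb hne with h | h | h
    · exact absurd ⟨s, ⟨sa, h ⟨sy, acy2 ⟨sa, sc⟩⟩⟩, sc⟩ habc
    · exact h
    · exact absurd ⟨t, ⟨⟨ta, tb⟩, h ⟨ty', tb⟩⟩, tz⟩ nyz
  refine ⟨fun r ⟨⟨ra, rb⟩, ry⟩ => ⟨⟨ra, rb⟩, hsub ⟨ry, rb⟩⟩, fun h => ?_⟩
  have := h ⟨⟨ta, tb⟩, ty'⟩
  exact nyz ⟨t, this, tz⟩

/-! ### Arcs in an odd cycle -/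

/-- The arc `{l, l+1, ..., l+k}` in `ℤ/n`. -/
def arc (n : ℕ) (l : ZMod n) (k : ℕ) : Set (ZMod n) := {x | ∃ d : ℕ, d ≤ k ∧ x = l + (d : ZMod n)}

/-- `A` is empty or an arc shorter than half of the circle `ℤ/n`. -/
def IsArc (n : ℕ) (A : Set (ZMod n)) : Prop :=
  A = ∅ ∨ ∃ (l : ZMod n) (k : ℕ), 2 * k < n ∧ A = arc n l k

theorem cast_inj {n : ℕ} {d e : ℤ} (h : (d : ZMod n) = (e : ZMod n)) (h1 : d - e < n)
    (h2 : e - d < n) : d = e := by
  have h' : (n : ℤ) ∣ d - e := by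
    rw [← ZMod.intCast_zmod_eq_zero_iff_dvd]
    push_cast
    rw [h, sub_self]
  have := Int.eq_zero_of_abs_lt_dvd h' (abs_lt.mpr ⟨by linarith, by linarith⟩)
  linarith

/-- Local coordinates of an arc around one of its points. -/
theorem IsArc.coords {n : ℕ} {A : Set (ZMod n)} (hA : IsArc n A) {s : ZMod n} (hs : s ∈ A) :
    ∃ p q : ℤ, 0 ≤ p ∧ 0 ≤ q ∧ 2 * (p + q) < n ∧
      ∀ x, x ∈ A ↔ ∃ d : ℤ, -p ≤ d ∧ d ≤ q ∧ x = s + (d : ZMod n) := by
  rcases hA with rfl | ⟨l, k, hk, rfl⟩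
  · exact absurd hs (by simp)
  · obtain ⟨e, he, rfl⟩ := hs
    refine ⟨e, (k : ℤ) - e, by omega, by omega, by omega, fun x => ⟨?_, ?_⟩⟩
    · rintro ⟨d, hd, rfl⟩
      refine ⟨(d : ℤ) - e, by omega, by omega, ?_⟩
      push_cast
      ring
    · rintro ⟨d, hd1, hd2, rfl⟩
      refine ⟨(d + e).toNat, by omega, ?_⟩
      have : (((d + e).toNat : ℤ) : ZMod n) = ((d + e : ℤ) : ZMod n) := by
        rw [Int.toNat_of_nonneg (by omega)]
      rw [Int.cast_natCast] at this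
      rw [this]
      push_cast
      ring

theorem IsArc.of_coords {n : ℕ} {A : Set (ZMod n)} {s : ZMod n} {p q : ℤ} (hp : 0 ≤ p)
    (hq : 0 ≤ q) (hpq : 2 * (p + q) < n)
    (h : ∀ x, x ∈ A ↔ ∃ d : ℤ, -p ≤ d ∧ d ≤ q ∧ x = s + (d : ZMod n)) : IsArc n A := by
  refine Or.inr ⟨s - (p : ZMod n), (p + q).toNat, by omega, ?_⟩
  ext x
  rw [h x]
  constructor
  · rintro ⟨d, hd1, hd2, rfl⟩
    refine ⟨(d + p).toNat, by omega, ?_⟩
    have : (((d + p).toNat : ℤ) : ZMod n) = ((d + p : ℤ) : ZMod n) := by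
      rw [Int.toNat_of_nonneg (by omega)]
    rw [Int.cast_natCast] at this
    rw [this]
    push_cast
    ring
  · rintro ⟨d, hd, rfl⟩
    refine ⟨(d : ℤ) - p, by omega, by omega, ?_⟩
    push_cast
    ring

theorem IsArc.inter {n : ℕ} {A B : Set (ZMod n)} (hA : IsArc n A) (hB : IsArc n B) :
    IsArc n (A ∩ B) := by
  rcases (A ∩ B).eq_empty_or_nonempty with h | ⟨s, sA, sB⟩
  · exact Or.inl h
  · obtain ⟨p, q, hp, hq, hpq, hA'⟩ := hA.coords sA
    obtain ⟨p', q', hp', hq', hpq', hB'⟩ := hB.coords sB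
    refine IsArc.of_coords (s := s) (p := min p p') (q := min q q') (by omega) (by omega)
      (by omega) ?_
    intro x
    constructor
    · rintro ⟨xA, xB⟩
      obtain ⟨d, hd1, hd2, rfl⟩ := (hA' x).1 xA
      obtain ⟨d', hd1', hd2', hdd⟩ := (hB' _).1 xB
      have : d = d' := cast_inj (add_left_cancel hdd) (by omega) (by omega)
      exact ⟨d, by omega, by omega, rfl⟩
    · rintro ⟨d, hd1, hd2, rfl⟩
      exact ⟨(hA' _).2 ⟨d, by omega, by omega, rfl⟩, (hB' _).2 ⟨d, by omega, by omega, rfl⟩⟩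

theorem IsArc.h1 {n : ℕ} (a b c : Set (ZMod n)) (ha : IsArc n a) (hb : IsArc n b)
    (hc : IsArc n c) (h : (a ∩ b ∩ c).Nonempty) : a ∩ b ⊆ c ∨ a ∩ c ⊆ b ∨ b ∩ c ⊆ a := by
  obtain ⟨s, ⟨sa, sb⟩, sc⟩ := h
  obtain ⟨p1, q1, hp1, hq1, hpq1, h1⟩ := ha.coords sa
  obtain ⟨p2, q2, hp2, hq2, hpq2, h2⟩ := hb.coords sb
  obtain ⟨p3, q3, hp3, hq3, hpq3, h3⟩ := hc.coords sc
  have key : ∀ (A B C : Set (ZMod n)) (p q p' q' p'' q'' : ℤ),
      (∀ x, x ∈ A ↔ ∃ d : ℤ, -p ≤ d ∧ d ≤ q ∧ x = s + (d : ZMod n)) →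
      (∀ x, x ∈ B ↔ ∃ d : ℤ, -p' ≤ d ∧ d ≤ q' ∧ x = s + (d : ZMod n)) →
      (∀ x, x ∈ C ↔ ∃ d : ℤ, -p'' ≤ d ∧ d ≤ q'' ∧ x = s + (d : ZMod n)) →
      0 ≤ p → 0 ≤ q → 0 ≤ p' → 0 ≤ q' → 2 * (p + q) < n → 2 * (p' + q') < n →
      min p p' ≤ p'' → min q q' ≤ q'' → A ∩ B ⊆ C := by
    rintro A B C p q p' q' p'' q'' hA hB hC hp hq hp' hq' hpq hpq' hmp hmq x ⟨xA, xB⟩
    obtain ⟨d, hd1, hd2, rfl⟩ := (hA x).1 xA
    obtain ⟨d', hd1', hd2', hdd⟩ := (hB _).1 xB
    have : d = d' := cast_inj (add_left_cancel hdd) (by omega) (by omega)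
    exact (hC _).2 ⟨d, by omega, by omega, rfl⟩
  have : (min p1 p2 ≤ p3 ∧ min q1 q2 ≤ q3) ∨ (min p1 p3 ≤ p2 ∧ min q1 q3 ≤ q2) ∨
      (min p2 p3 ≤ p1 ∧ min q2 q3 ≤ q1) := by omega
  rcases this with h | h | h
  · exact Or.inl (key a b c _ _ _ _ _ _ h1 h2 h3 hp1 hq1 hp2 hq2 hpq1 hpq2 h.1 h.2)
  · exact Or.inr (Or.inl (key a c b _ _ _ _ _ _ h1 h3 h2 hp1 hq1 hp3 hq3 hpq1 hpq3 h.1 h.2))
  · exact Or.inr (Or.inr (key b c a _ _ _ _ _ _ h2 h3 h1 hp2 hq2 hp3 hq3 hpq2 hpq3 h.1 h.2))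

theorem IsArc.h3 {n : ℕ} (a b c d : Set (ZMod n)) (ha : IsArc n a) (hb : IsArc n b)
    (hc : IsArc n c) (hd : IsArc n d) (habd : (a ∩ b ∩ d).Nonempty)
    (hacd : (a ∩ c ∩ d).Nonempty) (hbcd : (b ∩ c ∩ d).Nonempty) : (a ∩ b ∩ c).Nonempty := by
  obtain ⟨s, ⟨sa, sb⟩, sd⟩ := habd
  obtain ⟨t, ⟨ta, tc⟩, td⟩ := hacd
  obtain ⟨r, ⟨rb, rc⟩, rd⟩ := hbcd
  obtain ⟨p, q, hp, hq, hpq, hd'⟩ := hd.coords sd
  obtain ⟨e1, he1, he1', rfl⟩ := (hd' t).1 td
  obtain ⟨e2, he2, he2', rfl⟩ := (hd' r).1 rd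
  obtain ⟨p1, q1, hp1, hq1, hpq1, h1⟩ := ha.coords sa
  obtain ⟨p2, q2, hp2, hq2, hpq2, h2⟩ := hb.coords sb
  obtain ⟨p3, q3, hp3, hq3, hpq3, h3⟩ := hc.coords tc
  -- `e1` lies in the coordinate interval of `a`
  obtain ⟨f1, hf1, hf1', hf1e⟩ := (h1 _).1 ta
  have e1f1 : e1 = f1 := cast_inj (add_left_cancel hf1e) (by omega) (by omega)
  -- `e2` lies in the coordinate interval of `b`
  obtain ⟨f2, hf2, hf2', hf2e⟩ := (h2 _).1 rb
  have e2f2 : e2 = f2 := cast_inj (add_left_cancel hf2e) (by omega) (by omega)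
  -- `e2 - e1` lies in the coordinate interval of `c` at `t`
  obtain ⟨f3, hf3, hf3', hf3e⟩ := (h3 _).1 rc
  have e3f3 : e2 = e1 + f3 := by
    refine cast_inj (n := n) ?_ (by omega) (by omega)
    rw [add_assoc] at hf3e
    have := add_left_cancel hf3e
    rw [this]
    push_cast
    rfl
  subst e1f1 e2f2
  -- the median of `0, e1, e2`
  have hmed : (e1 ≤ 0 ∧ 0 ≤ e2) ∨ (e2 ≤ 0 ∧ 0 ≤ e1) ∨ (0 ≤ e1 ∧ e1 ≤ e2) ∨ (e2 ≤ e1 ∧ e1 ≤ 0) ∨
      (0 ≤ e2 ∧ e2 ≤ e1) ∨ (e1 ≤ e2 ∧ e2 ≤ 0) := by omega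
  have hs : (e1 ≤ 0 ∧ 0 ≤ e2) ∨ (e2 ≤ 0 ∧ 0 ≤ e1) → s ∈ c := by
    intro h
    refine (h3 s).2 ⟨-e1, by omega, by omega, ?_⟩
    push_cast
    ring
  have ht : (0 ≤ e1 ∧ e1 ≤ e2) ∨ (e2 ≤ e1 ∧ e1 ≤ 0) → s + (e1 : ZMod n) ∈ b := by
    intro h
    exact (h2 _).2 ⟨e1, by omega, by omega, rfl⟩
  have hr : (0 ≤ e2 ∧ e2 ≤ e1) ∨ (e1 ≤ e2 ∧ e2 ≤ 0) → s + (e2 : ZMod n) ∈ a := by
    intro h
    exact (h1 _).2 ⟨e2, by omega, by omega, rfl⟩
  rcases hmed with h | h | h | h | h | h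
  · exact ⟨s, ⟨sa, sb⟩, hs (Or.inl h)⟩
  · exact ⟨s, ⟨sa, sb⟩, hs (Or.inr h)⟩
  · exact ⟨_, ⟨ta, ht (Or.inl h)⟩, tc⟩
  · exact ⟨_, ⟨ta, ht (Or.inr h)⟩, tc⟩
  · exact ⟨_, ⟨hr (Or.inl h), rb⟩, rc⟩
  · exact ⟨_, ⟨hr (Or.inr h), rb⟩, rc⟩

/-! ### The finite semilattice of arcs of `ℤ/(2m+1)` -/

/-- The arcs of `ℤ/(2m+1)` with at most `m+1` points, together with the empty set. -/
def Arcs (m : ℕ) : Type := {A : Set (ZMod (2 * m + 1)) // IsArc (2 * m + 1) A}

instance (m : ℕ) : Semigroup (Arcs m) where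
  mul A B := ⟨A.1 ∩ B.1, A.2.inter B.2⟩
  mul_assoc _ _ _ := Subtype.ext (Set.inter_assoc _ _ _)

theorem Arcs.mul_val {m : ℕ} (A B : Arcs m) : (A * B).1 = A.1 ∩ B.1 := rfl

instance (m : ℕ) : Finite (Arcs m) := by
  unfold Arcs
  infer_instance

/-! ### The identical inclusion -/

/-- The letter `i` as a word. -/
abbrev X (i : ℕ) : FreeSemigroup ℕ := FreeSemigroup.of i

/-- The main inclusion. The letters `0, 1, 2` play the role of `a, b, c`, the letter `2j+3` that of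
`y_j` and the letter `2j+4` that of `z_j`. -/
def mainInclusion : IdInclusion where
  u := X 0 * X 1 * X 2
  V := {X 0 * X 1, X 0 * X 2, X 1 * X 2} ∪
    {v | ∃ j : ℕ, v = X 0 * X 1 * X (2 * j + 3) ∨ v = X 0 * X 2 * X (2 * j + 3) ∨
      v = X 0 * X 1 * X (2 * j + 4) ∨ v = X 1 * X 2 * X (2 * j + 4) ∨
      v = X 2 * X (2 * j + 3) * X (2 * j + 4) ∨
      v = X 0 * X 1 * X (2 * j + 4) * X (2 * (j + 1) + 3)}
  nonempty := ⟨X 0 * X 1, by simp⟩

/-- `x ∈ {xx}`. -/
def idemInclusion : IdInclusion := ⟨X 0, {X 0 * X 0}, ⟨_, rfl⟩⟩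

/-- `xy ∈ {yx}`. -/
def commInclusion : IdInclusion := ⟨X 0 * X 1, {X 1 * X 0}, ⟨_, rfl⟩⟩

/-- The three inclusions that define our inclusive variety of semilattices. -/
def theInclusions : Set IdInclusion := {mainInclusion, idemInclusion, commInclusion}

theorem arcs_main (m : ℕ) : mainInclusion.SatisfiedBy (Arcs m) := by
  intro φ
  by_contra hcon
  push Not at hcon
  set a := φ (X 0) with ha
  set b := φ (X 1) with hb
  set c := φ (X 2) with hc
  set y : ℕ → Arcs m := fun j => φ (X (2 * j + 3)) with hy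
  set z : ℕ → Arcs m := fun j => φ (X (2 * j + 4)) with hz
  have hu : φ mainInclusion.u = a * b * c := by simp [mainInclusion, ha, hb, hc]
  -- the pair words
  have hab : a * b * c ≠ a * b := by
    have := hcon (X 0 * X 1) (by simp [mainInclusion])
    rw [hu] at this
    simpa using this
  have hac : a * b * c ≠ a * c := by
    have := hcon (X 0 * X 2) (by simp [mainInclusion])
    rw [hu] at this
    simpa using this
  have hbc : a * b * c ≠ b * c := by
    have := hcon (X 1 * X 2) (by simp [mainInclusion])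
    rw [hu] at this
    simpa using this
  have habc : ¬ (a.1 ∩ b.1 ∩ c.1).Nonempty := by
    intro hne
    rcases IsArc.h1 a.1 b.1 c.1 a.2 b.2 c.2 hne with h | h | h
    · exact hab (Subtype.ext (Set.inter_eq_left.mpr h))
    · refine hac (Subtype.ext ?_)
      show a.1 ∩ b.1 ∩ c.1 = a.1 ∩ c.1
      ext x
      constructor
      · rintro ⟨⟨h1, h2⟩, h3⟩
        exact ⟨h1, h3⟩
      · rintro ⟨h1, h3⟩
        exact ⟨⟨h1, h ⟨h1, h3⟩⟩, h3⟩
    · refine hbc (Subtype.ext ?_)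
      show a.1 ∩ b.1 ∩ c.1 = b.1 ∩ c.1
      ext x
      constructor
      · rintro ⟨⟨h1, h2⟩, h3⟩
        exact ⟨h2, h3⟩
      · rintro ⟨h2, h3⟩
        exact ⟨⟨h ⟨h2, h3⟩, h2⟩, h3⟩
  have habc' : (a * b * c).1 = ∅ := Set.not_nonempty_iff_eq_empty.mp habc
  -- every word of the second family has nonempty value
  have hne : ∀ v ∈ mainInclusion.V, (φ v).1.Nonempty := by
    intro v hv
    by_contra hempty
    refine hcon v hv ?_
    rw [hu]
    refine Subtype.ext ?_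
    rw [habc', Set.not_nonempty_iff_eq_empty.mp hempty]
  have aby : ∀ j, (a.1 ∩ b.1 ∩ (y j).1).Nonempty := fun j => by
    have := hne (X 0 * X 1 * X (2 * j + 3)) (Or.inr ⟨j, by simp⟩)
    simpa [Arcs.mul_val, ha, hb, hy] using this
  have acy : ∀ j, (a.1 ∩ c.1 ∩ (y j).1).Nonempty := fun j => by
    have := hne (X 0 * X 2 * X (2 * j + 3)) (Or.inr ⟨j, by simp⟩)
    simpa [Arcs.mul_val, ha, hc, hy] using this
  have abz : ∀ j, (a.1 ∩ b.1 ∩ (z j).1).Nonempty := fun j => by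
    have := hne (X 0 * X 1 * X (2 * j + 4)) (Or.inr ⟨j, by simp⟩)
    simpa [Arcs.mul_val, ha, hb, hz] using this
  have bcz : ∀ j, (b.1 ∩ c.1 ∩ (z j).1).Nonempty := fun j => by
    have := hne (X 1 * X 2 * X (2 * j + 4)) (Or.inr ⟨j, by simp⟩)
    simpa [Arcs.mul_val, hb, hc, hz] using this
  have cyz : ∀ j, (c.1 ∩ (y j).1 ∩ (z j).1).Nonempty := fun j => by
    have := hne (X 2 * X (2 * j + 3) * X (2 * j + 4)) (Or.inr ⟨j, by simp⟩)
    simpa [Arcs.mul_val, hc, hy, hz] using this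
  have abzy : ∀ j, (a.1 ∩ b.1 ∩ (z j).1 ∩ (y (j + 1)).1).Nonempty := fun j => by
    have := hne (X 0 * X 1 * X (2 * j + 4) * X (2 * (j + 1) + 3)) (Or.inr ⟨j, by simp⟩)
    simpa [Arcs.mul_val, ha, hb, hy, hz] using this
  have hmono : StrictMono (fun j => a.1 ∩ b.1 ∩ (y j).1) := by
    refine strictMono_nat_of_lt_succ fun j => ?_
    exact step (IsArc (2 * m + 1)) IsArc.h1 IsArc.h3 a.2 b.2 c.2 (y j).2 (z j).2 (y (j + 1)).2
      (z (j + 1)).2 habc (aby j) (acy j) (abz j) (bcz j) (cyz j) (aby (j + 1)) (acy (j + 1))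
      (abz (j + 1)) (bcz (j + 1)) (cyz (j + 1)) (abzy j)
  exact not_injective_infinite_finite _ hmono.injective

theorem SatisfiedBy.ulift {I : IdInclusion} {S : Type} [Semigroup S] (h : I.SatisfiedBy S) :
    I.SatisfiedBy (ULift.{w} S) := by
  intro φ
  obtain ⟨v, hv, he⟩ := h ((MulEquiv.ulift : ULift.{w} S ≃* S).toMulHom.comp φ)
  exact ⟨v, hv, MulEquiv.ulift.injective he⟩

theorem arcs_mem (m : ℕ) : InInclusiveVariety theInclusions (ULift.{w} (Arcs m)) := by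
  intro I hI
  refine SatisfiedBy.ulift ?_
  simp only [theInclusions, Set.mem_insert_iff, Set.mem_singleton_iff] at hI
  rcases hI with rfl | rfl | rfl
  · exact arcs_main m
  · intro φ
    refine ⟨_, rfl, ?_⟩
    simp only [idemInclusion, map_mul]
    exact Subtype.ext (Set.inter_self _).symm
  · intro φ
    refine ⟨_, rfl, ?_⟩
    simp only [commInclusion, map_mul]
    exact Subtype.ext (Set.inter_comm _ _)

/-! ### Members are semilattices -/

theorem idem_of_mem {S : Type*} [Semigroup S] (h : InInclusiveVariety theInclusions S) (x : S) :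
    x * x = x := by
  obtain ⟨v, hv, he⟩ := h idemInclusion (by simp [theInclusions])
    (FreeSemigroup.lift (fun _ => x))
  simp only [idemInclusion, Set.mem_singleton_iff] at hv he
  subst hv
  simpa using he.symm

theorem comm_of_mem {S : Type*} [Semigroup S] (h : InInclusiveVariety theInclusions S) (x y : S) :
    x * y = y * x := by
  obtain ⟨v, hv, he⟩ := h commInclusion (by simp [theInclusions])
    (FreeSemigroup.lift (fun i => if i = 0 then x else y))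
  simp only [commInclusion, Set.mem_singleton_iff] at hv he
  subst hv
  simpa using he

/-! ### The failing assignment -/

/-- the arc with `m+1` points starting at `i` -/
def bigArc (m : ℕ) (i : ℤ) : Arcs m :=
  ⟨arc (2 * m + 1) (i : ZMod (2 * m + 1)) m, Or.inr ⟨_, m, by omega, rfl⟩⟩

theorem mem_bigArc {m : ℕ} {i x : ℤ} (k : ℤ) (h1 : i ≤ x + k * (2 * m + 1))
    (h2 : x + k * (2 * m + 1) ≤ i + m) :
    ((x : ℤ) : ZMod (2 * m + 1)) ∈ (bigArc m i).1 := by
  refine ⟨(x + k * (2 * m + 1) - i).toNat, by omega, ?_⟩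
  have : (((x + k * (2 * m + 1) - i).toNat : ℤ) : ZMod (2 * m + 1)) =
      ((x + k * (2 * m + 1) - i : ℤ) : ZMod (2 * m + 1)) := by
    rw [Int.toNat_of_nonneg (by omega)]
  rw [Int.cast_natCast] at this
  rw [this]
  have h0 : (((2 * m + 1 : ℕ) : ℤ) : ZMod (2 * m + 1)) = 0 := by
    rw [Int.cast_natCast, ZMod.natCast_self]
  push_cast at h0 ⊢
  rw [h0]
  ring

theorem exists_of_mem_bigArc {m : ℕ} {i : ℤ} {x : ZMod (2 * m + 1)} (h : x ∈ (bigArc m i).1) :
    ∃ d : ℤ, i ≤ d ∧ d ≤ i + m ∧ x = (d : ZMod (2 * m + 1)) := by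
  obtain ⟨d, hd, rfl⟩ := h
  exact ⟨i + d, by omega, by omega, by push_cast; rfl⟩

/-- The assignment of arcs to letters. -/
def assign (m : ℕ) (i : ℕ) : Arcs m :=
  if i = 0 then bigArc m (-1) else if i = 1 then bigArc m 0 else if i = 2 then bigArc m m
  else if i % 2 = 1 then bigArc m ((i - 3 : ℕ) / 2 + 1 + m) else bigArc m ((i - 4 : ℕ) / 2 + 1)

theorem assign_zero (m : ℕ) : assign m 0 = bigArc m (-1) := by simp [assign]
theorem assign_one (m : ℕ) : assign m 1 = bigArc m 0 := by simp [assign]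
theorem assign_two (m : ℕ) : assign m 2 = bigArc m m := by simp [assign]
theorem assign_y (m j : ℕ) : assign m (2 * j + 3) = bigArc m (j + 1 + m) := by
  unfold assign
  rw [if_neg (by omega), if_neg (by omega), if_neg (by omega), if_pos (by omega)]
  congr 1
  omega
theorem assign_z (m j : ℕ) : assign m (2 * j + 4) = bigArc m (j + 1) := by
  unfold assign
  rw [if_neg (by omega), if_neg (by omega), if_neg (by omega), if_neg (by omega)]
  congr 1
  omega

theorem lift_u {m : ℕ} (hm : 1 ≤ m) :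
    (FreeSemigroup.lift (assign m) mainInclusion.u).1 = ∅ := by
  simp only [mainInclusion, map_mul, FreeSemigroup.lift_of, Arcs.mul_val, assign_zero, assign_one,
    assign_two]
  rw [Set.eq_empty_iff_forall_notMem]
  rintro x ⟨⟨h1, h2⟩, h3⟩
  obtain ⟨d1, hd1, hd1', e1⟩ := exists_of_mem_bigArc h1
  obtain ⟨d2, hd2, hd2', e2⟩ := exists_of_mem_bigArc h2
  obtain ⟨d3, hd3, hd3', e3⟩ := exists_of_mem_bigArc h3
  have h23 : d2 = d3 := cast_inj (n := 2 * m + 1) (e2.symm.trans e3) (by push_cast; omega)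
    (by push_cast; omega)
  have h12 : d1 = d2 := cast_inj (n := 2 * m + 1) (e1.symm.trans e2) (by push_cast; omega)
    (by push_cast; omega)
  omega

theorem lift_v {v : FreeSemigroup ℕ} (hv : v ∈ mainInclusion.V) :
    ∃ N : ℕ, ∀ m ≥ N, (FreeSemigroup.lift (assign m) v).1.Nonempty := by
  rcases hv with hv | ⟨j, hv⟩
  · refine ⟨1, fun m hm => ?_⟩
    simp only [Set.mem_insert_iff, Set.mem_singleton_iff] at hv
    rcases hv with rfl | rfl | rfl
    · simp only [map_mul, FreeSemigroup.lift_of, Arcs.mul_val, assign_zero, assign_one]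
      exact ⟨((0 : ℤ) : ZMod (2 * m + 1)), mem_bigArc 0 (by omega) (by omega),
        mem_bigArc 0 (by omega) (by omega)⟩
    · simp only [map_mul, FreeSemigroup.lift_of, Arcs.mul_val, assign_zero, assign_two]
      exact ⟨((-1 : ℤ) : ZMod (2 * m + 1)), mem_bigArc 0 (by omega) (by omega),
        mem_bigArc 1 (by omega) (by omega)⟩
    · simp only [map_mul, FreeSemigroup.lift_of, Arcs.mul_val, assign_one, assign_two]
      exact ⟨((m : ℤ) : ZMod (2 * m + 1)), mem_bigArc 0 (by omega) (by omega),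
        mem_bigArc 0 (by omega) (by omega)⟩
  · refine ⟨j + 3, fun m hm => ?_⟩
    rcases hv with rfl | rfl | rfl | rfl | rfl | rfl
    · simp only [map_mul, FreeSemigroup.lift_of, Arcs.mul_val, assign_zero, assign_one, assign_y]
      exact ⟨((j : ℤ) : ZMod (2 * m + 1)), ⟨mem_bigArc 0 (by omega) (by omega),
        mem_bigArc 0 (by omega) (by omega)⟩, mem_bigArc 1 (by omega) (by omega)⟩
    · simp only [map_mul, FreeSemigroup.lift_of, Arcs.mul_val, assign_zero, assign_two, assign_y]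
      exact ⟨((-1 : ℤ) : ZMod (2 * m + 1)), ⟨mem_bigArc 0 (by omega) (by omega),
        mem_bigArc 1 (by omega) (by omega)⟩, mem_bigArc 1 (by omega) (by omega)⟩
    · simp only [map_mul, FreeSemigroup.lift_of, Arcs.mul_val, assign_zero, assign_one, assign_z]
      exact ⟨((j + 1 : ℤ) : ZMod (2 * m + 1)), ⟨mem_bigArc 0 (by omega) (by omega),
        mem_bigArc 0 (by omega) (by omega)⟩, mem_bigArc 0 (by omega) (by omega)⟩
    · simp only [map_mul, FreeSemigroup.lift_of, Arcs.mul_val, assign_one, assign_two, assign_z]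
      exact ⟨((m : ℤ) : ZMod (2 * m + 1)), ⟨mem_bigArc 0 (by omega) (by omega),
        mem_bigArc 0 (by omega) (by omega)⟩, mem_bigArc 0 (by omega) (by omega)⟩
    · simp only [map_mul, FreeSemigroup.lift_of, Arcs.mul_val, assign_two, assign_y, assign_z]
      exact ⟨((j + 1 + m : ℤ) : ZMod (2 * m + 1)), ⟨mem_bigArc 0 (by omega) (by omega),
        mem_bigArc 0 (by omega) (by omega)⟩, mem_bigArc 0 (by omega) (by omega)⟩
    · simp only [map_mul, FreeSemigroup.lift_of, Arcs.mul_val, assign_zero, assign_one, assign_y,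
        assign_z]
      exact ⟨((j + 1 : ℤ) : ZMod (2 * m + 1)), ⟨⟨mem_bigArc 0 (by omega) (by omega),
        mem_bigArc 0 (by omega) (by omega)⟩, mem_bigArc 0 (by omega) (by omega)⟩,
        mem_bigArc 1 (by push_cast; omega) (by push_cast; omega)⟩

/-! ### The ultraproduct -/

/-- The ultraproduct of the finite semilattices. -/
abbrev U : Type w :=
  ((Filter.hyperfilter ℕ : Ultrafilter ℕ) : Filter ℕ).Product (fun m => ULift.{w} (Arcs m))

/-- The multiplication of the ultraproduct. -/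
noncomputable instance : Mul U.{w} where
  mul x y := @Language.Structure.funMap mulLanguage U.{w} Language.Ultraproduct.structure 2
    MulFunctions.mul ![x, y]

/-- the class of a sequence -/
noncomputable def mkU (f : ∀ m, ULift.{w} (Arcs m)) : U.{w} :=
  @Quotient.mk' _ (Filter.productSetoid _ (fun m => ULift.{w} (Arcs m))) f

theorem mkU_surj (x : U.{w}) : ∃ f, x = mkU.{w} f := by
  induction x using Quotient.inductionOn'
  exact ⟨_, rfl⟩

theorem mkU_mul (f g : ∀ m, ULift.{w} (Arcs m)) : mkU f * mkU g = mkU (fun m => f m * g m) := by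
  have h := @Language.Ultraproduct.funMap_cast ℕ (fun m => ULift.{w} (Arcs m))
      (Filter.hyperfilter ℕ) mulLanguage _ 2 MulFunctions.mul ![f, g]
  have h' : (![mkU f, mkU g] : Fin 2 → U.{w}) = fun i => mkU ((![f, g] : Fin 2 → _) i) := by
    funext i
    fin_cases i <;> rfl
  show @Language.Structure.funMap mulLanguage U.{w} Language.Ultraproduct.structure 2
    MulFunctions.mul ![mkU f, mkU g] = _
  rw [h']
  exact h

noncomputable instance : Semigroup U.{w} where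
  mul_assoc := by
    intro a b c
    obtain ⟨f, rfl⟩ := mkU_surj a
    obtain ⟨g, rfl⟩ := mkU_surj b
    obtain ⟨h, rfl⟩ := mkU_surj c
    simp only [mkU_mul, mul_assoc]

instance (m : ℕ) : Nonempty (ULift.{w} (Arcs m)) := ⟨⟨bigArc m 0⟩⟩

theorem structure_eq :
    (mulStructure U.{w}) = Language.Ultraproduct.structure := by
  refine Language.Structure.ext ?_ ?_
  · funext n f x
    cases f
    have hx : x = ![x 0, x 1] := by
      funext i
      fin_cases i <;> rfl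
    conv_rhs => rw [hx]
    rfl
  · funext n r
    exact r.elim

theorem models_iff (T : mulLanguage.Theory) :
    @Language.Theory.Model mulLanguage U.{w} (mulStructure U.{w}) T ↔
      @Language.Theory.Model mulLanguage U.{w} Language.Ultraproduct.structure T := by
  rw [structure_eq]

theorem lift_mkU (v : FreeSemigroup ℕ) :
    FreeSemigroup.lift (fun i => mkU.{w} (fun m => ⟨assign m i⟩)) v =
      mkU (fun m => ⟨FreeSemigroup.lift (assign m) v⟩) := by
  induction v using FreeSemigroup.recOnMul with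
  | ih1 x => simp
  | ih2 x v h1 h2 =>
    rw [map_mul, h1, h2, mkU_mul]
    congr 1
    funext m
    rw [map_mul]
    rfl

theorem result :
    ∃ E : Set IdInclusion,
      (∀ (S : Type w) [Semigroup S], InInclusiveVariety E S →
        (∀ x : S, x * x = x) ∧ ∀ x y : S, x * y = y * x) ∧
      ¬ IsElementary.{w} E := by
  refine ⟨theInclusions, fun S _ h => ⟨idem_of_mem h, comm_of_mem h⟩, ?_⟩
  rintro ⟨T, hT⟩
  have h1 : ∀ m : ℕ, (ULift.{w} (Arcs m)) ⊨ T := fun m => (hT _).1 (arcs_mem m)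
  have : Nonempty U.{w} := ⟨mkU (fun m => ⟨bigArc m 0⟩)⟩
  have h2 : @Language.Theory.Model mulLanguage U.{w} (mulStructure U.{w}) T := by
    rw [models_iff]
    refine @Language.Theory.Model.mk _ _ Language.Ultraproduct.structure _ fun φ hφ => ?_
    rw [Language.Ultraproduct.sentence_realize]
    exact Filter.Eventually.of_forall fun m => (h1 m).realize_of_mem φ hφ
  have h3 := (hT U.{w}).2 h2
  obtain ⟨v, hv, he⟩ := h3 mainInclusion (by simp [theInclusions])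
    (FreeSemigroup.lift (fun i => mkU.{w} (fun m => ⟨assign m i⟩)))
  rw [lift_mkU, lift_mkU] at he
  have he' : ∀ᶠ m in ((Filter.hyperfilter ℕ : Ultrafilter ℕ) : Filter ℕ),
      (⟨FreeSemigroup.lift (assign m) mainInclusion.u⟩ : ULift.{w} (Arcs m)) =
        ⟨FreeSemigroup.lift (assign m) v⟩ :=
    @Quotient.exact' _ (Filter.productSetoid _ (fun m => ULift.{w} (Arcs m))) _ _ he
  obtain ⟨N, hN⟩ := lift_v hv
  have hge : ∀ᶠ m in ((Filter.hyperfilter ℕ : Ultrafilter ℕ) : Filter ℕ), N + 1 ≤ m := by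
    refine Filter.hyperfilter_le_cofinite ?_
    rw [Nat.cofinite_eq_atTop]
    exact Filter.eventually_ge_atTop (N + 1)
  obtain ⟨m, hm1, hm2⟩ := (he'.and hge).exists
  have h4 := hN m (by omega)
  have h5 : FreeSemigroup.lift (assign m) mainInclusion.u = FreeSemigroup.lift (assign m) v :=
    congrArg ULift.down hm1
  rw [← h5, lift_u (by omega)] at h4
  exact Set.not_nonempty_empty h4

end Pool.Agent.Results.MP_a762d4_al.NonelementarySemilattices
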